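import Mathlib

/-!
# TANK G, block B: the count of one projection step

`ι` is the set of places of a function field of one variable, `o P = ord_P`, `dg P` the degree.
`t` is the order of the projection coordinate `t_1`, `f` that of `f_0`, `f'` that of `f_(n+1)`,
`w`, `w'` the orders of the determinants `W(f_0; t)`, `W(f_(n+1); t)`.
-/

set_option autoImplicit false

namespace Pool.Agent.TGh71

open Function

/-- degree of a divisor -/
noncomputable def dsum {ι : Type*} (dg : ι → ℕ) (u : ι → ℤ) : ℤ := ∑ᶠ P, u P * (dg P : ℤ)

section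

variable {ι : Type*} {dg : ι → ℕ}

theorem dsum_fin {u : ι → ℤ} (hu : (support u).Finite) :
    (support fun P => u P * (dg P : ℤ)).Finite :=
  hu.subset fun P hP => by
    rw [mem_support] at hP ⊢
    exact fun h => hP (by rw [h, zero_mul])

theorem dsum_add {u v : ι → ℤ} (hu : (support u).Finite) (hv : (support v).Finite) :
    dsum dg (fun P => u P + v P) = dsum dg u + dsum dg v := by
  rw [dsum, dsum, dsum, ← finsum_add_distrib (dsum_fin hu) (dsum_fin hv)]
  exact finsum_congr fun P => by ring

theorem dsum_sub {u v : ι → ℤ} (hu : (support u).Finite) (hv : (support v).Finite) :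
    dsum dg (fun P => u P - v P) = dsum dg u - dsum dg v := by
  rw [dsum, dsum, dsum, ← finsum_sub_distrib (dsum_fin hu) (dsum_fin hv)]
  exact finsum_congr fun P => by ring

theorem dsum_nonneg {u : ι → ℤ} (h : ∀ P, 0 ≤ u P) : 0 ≤ dsum dg u :=
  finsum_nonneg fun P => mul_nonneg (h P) (Int.natCast_nonneg _)

theorem dsum_mono {u v : ι → ℤ} (hu : (support u).Finite) (hv : (support v).Finite)
    (h : ∀ P, u P ≤ v P) : dsum dg u ≤ dsum dg v := by
  have h1 : 0 ≤ dsum dg (fun P => v P - u P) := dsum_nonneg fun P => sub_nonneg.2 (h P)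
  rw [dsum_sub hv hu] at h1
  linarith

/-- the order of poles of `f_0 / t_1` -/
def pol (t f : ι → ℤ) (P : ι) : ℤ := max 0 (t P - f P)

open Classical in
/-- the branch and boundary weight -/
noncomputable def wgt (good : Set ι) (t f w : ι → ℤ) (P : ι) : ℤ :=
  if P ∈ good then w P else if t P ≤ f P then 1 else 0

theorem pol_fin {t f : ι → ℤ} (ht : (support t).Finite) (hf : (support f).Finite) :
    (support (pol t f)).Finite := (ht.union hf).subset fun P hP => by
  rw [Set.mem_union]
  by_contra h
  push Not at h
  rw [notMem_support, notMem_support] at h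
  apply hP
  rw [pol, h.1, h.2]
  rfl

theorem wgt_fin {good : Set ι} {t f w : ι → ℤ} (hg : (goodᶜ).Finite) (hw : (support w).Finite) :
    (support (wgt good t f w)).Finite := (hg.union hw).subset fun P hP => by
  by_contra h
  rw [Set.mem_union, not_or, Set.mem_compl_iff, not_not, notMem_support] at h
  apply hP
  rw [wgt, if_pos h.1, h.2]

/-- **The count.** -/
theorem count {good : Set ι} {t f f' w w' : ι → ℤ} (hg : (goodᶜ).Finite)
    (ht : (support t).Finite) (hf : (support f).Finite) (hf' : (support f').Finite)
    (hw : (support w).Finite) (hw' : (support w').Finite)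
    (pw : dsum dg w = 0) (pw' : dsum dg w' = 0)
    (h1 : ∀ P, P ∉ good → w P ≤ w' P) (h2 : ∀ P, min (f P) (t P) ≤ f' P) :
    dsum dg (wgt good t f' w') + dsum dg (pol t f') ≤
      dsum dg (wgt good t f w) + dsum dg (pol t f) := by
  have k1 := wgt_fin (t := t) (f := f') hg hw'
  have k2 := wgt_fin (t := t) (f := f) hg hw
  have k3 := pol_fin ht hf'
  have k4 := pol_fin ht hf
  have fa : ∀ {u v : ι → ℤ}, (support u).Finite → (support v).Finite →
      (support fun P => u P + v P).Finite := fun hu hv => (hu.union hv).subset (support_add _ _)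
  have e1 := dsum_add (dg := dg) (fa k1 k3) hw
  have e2 := dsum_add (dg := dg) (fa k2 k4) hw'
  have e3 : dsum dg (fun P => (wgt good t f' w' P + pol t f' P) + w P) ≤
      dsum dg (fun P => (wgt good t f w P + pol t f P) + w' P) := by
    refine dsum_mono (fa (fa k1 k3) hw) (fa (fa k2 k4) hw') fun P => ?_
    have := h2 P
    by_cases hP : P ∈ good
    · simp only [wgt, if_pos hP, pol]
      omega
    · have := h1 P hP
      simp only [wgt, if_neg hP, pol]
      split_ifs <;> omega
  rw [e1, e2, dsum_add k1 k3, dsum_add k2 k4, pw, pw'] at e3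
  linarith

/-- The drop of the number of poles. -/
theorem pol_drop {t f f' : ι → ℤ} (ht : (support t).Finite) (hf : (support f).Finite)
    (hf' : (support f').Finite) (h2 : ∀ P, min (f P) (t P) ≤ f' P) (Y : Set ι)
    (hY : ∀ P ∈ Y, t P ≤ f' P) :
    dsum dg (pol t f') + dsum dg (Y.indicator (pol t f)) ≤ dsum dg (pol t f) := by
  have k3 := pol_fin ht hf'
  have k4 := pol_fin ht hf
  have k5 : (support (Y.indicator (pol t f))).Finite :=
    k4.subset (by rw [Set.support_indicator]; exact Set.inter_subset_right)
  rw [← dsum_add k3 k5]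
  refine dsum_mono ((k3.union k5).subset (support_add _ _)) k4 fun P => ?_
  have := h2 P
  by_cases hP : P ∈ Y
  · have := hY P hP
    rw [Set.indicator_of_mem hP]
    simp only [pol]
    omega
  · rw [Set.indicator_of_notMem hP]
    simp only [pol]
    omega

end

end Pool.Agent.TGh71
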