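import Mathlib

/-!
# TANK G, block B: generic elements of a finite dimensional space

`exists_generic`: over an infinite field a finite dimensional space `S ≤ K` has an element outside
finitely many subspaces (not containing `S`) whose order, and the order of whose image under a linear
map `L`, are minimal for finitely many discrete valuations.
-/

set_option autoImplicit false

namespace Pool.Agent.TGh71

section

variable {k K : Type*} [Field k] [Field K] [Algebra k K]

/-- `o` is (minus) the logarithm of a discrete valuation of `K` over `k`. -/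
structure IsOrd (k : Type*) {K : Type*} [Field k] [Field K] [Algebra k K] (o : K → ℤ) : Prop where
  mul : ∀ x y : K, x ≠ 0 → y ≠ 0 → o (x * y) = o x + o y
  add : ∀ x y : K, x ≠ 0 → y ≠ 0 → x + y ≠ 0 → min (o x) (o y) ≤ o (x + y)
  const : ∀ c : k, c ≠ 0 → o (algebraMap k K c) = 0

/-- `{x | x = 0 ∨ a < o x}` -/
def IsOrd.gt {o : K → ℤ} (h : IsOrd k o) (a : ℤ) : Submodule k K where
  carrier := {x | x = 0 ∨ a < o x}
  zero_mem' := Or.inl rfl
  add_mem' := by
    intro x y hx hy
    rcases eq_or_ne x 0 with rfl | hx0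
    · rwa [zero_add]
    rcases eq_or_ne y 0 with rfl | hy0
    · rwa [add_zero]
    by_cases hxy : x + y = 0
    · exact Or.inl hxy
    · rcases hx with hx | hx
      · exact absurd hx hx0
      rcases hy with hy | hy
      · exact absurd hy hy0
      exact Or.inr (lt_of_lt_of_le (lt_min hx hy) (h.add x y hx0 hy0 hxy))
  smul_mem' := by
    intro c x hx
    rcases eq_or_ne c 0 with rfl | hc
    · rw [zero_smul]; exact Or.inl rfl
    rcases hx with rfl | hx
    · rw [smul_zero]; exact Or.inl rfl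
    · by_cases hx0 : x = 0
      · rw [hx0, smul_zero]; exact Or.inl rfl
      refine Or.inr ?_
      rw [Algebra.smul_def, h.mul _ _ (by simpa using hc) hx0, h.const c hc, zero_add]
      exact hx

theorem IsOrd.mem_gt {o : K → ℤ} (h : IsOrd k o) {a : ℤ} {x : K} :
    x ∈ h.gt a ↔ x = 0 ∨ a < o x := Iff.rfl

theorem IsOrd.gt_mono {o : K → ℤ} (h : IsOrd k o) {a b : ℤ} (hab : a ≤ b) : h.gt b ≤ h.gt a :=
  fun _ hx => hx.imp id fun h => lt_of_le_of_lt hab h

/-- The orders on a nonzero finite dimensional space have a minimum. -/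
theorem IsOrd.exists_min {o : K → ℤ} (h : IsOrd k o) {T : Submodule k K} (hT : T.FG)
    (h0 : T ≠ ⊥) : ∃ x ∈ T, x ≠ 0 ∧ ∀ y ∈ T, y ≠ 0 → o x ≤ o y := by
  classical
  obtain ⟨s, hs⟩ := hT
  have hne : (s.filter (· ≠ 0)).Nonempty := by
    by_contra hc
    rw [Finset.not_nonempty_iff_eq_empty, Finset.filter_eq_empty_iff] at hc
    apply h0
    rw [← hs, Submodule.span_eq_bot]
    intro x hx
    by_contra hx0
    exact hc hx hx0
  obtain ⟨x, hx, hmin⟩ := Finset.exists_min_image (s.filter (· ≠ 0)) o hne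
  rw [Finset.mem_filter] at hx
  refine ⟨x, hs ▸ Submodule.subset_span hx.1, hx.2, fun y hy hy0 => ?_⟩
  have h1 : T ≤ h.gt (o x - 1) := by
    rw [← hs, Submodule.span_le]
    intro z hz
    by_cases hz0 : z = 0
    · exact Or.inl hz0
    · have := hmin z (Finset.mem_filter.2 ⟨hz, hz0⟩)
      exact Or.inr (by omega)
  rcases h1 hy with h2 | h2
  · exact absurd h2 hy0
  · omega

/-- Avoiding finitely many subspaces. -/
theorem exists_avoid [Infinite k] (S : Submodule k K) (F : Set (Submodule k K)) (hF : F.Finite)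
    (h : ∀ H ∈ F, ¬ S ≤ H) : ∃ s ∈ S, ∀ H ∈ F, s ∉ H := by
  classical
  set G : Finset (Submodule k S) := hF.toFinset.image fun H => H.comap S.subtype with hG
  have h1 : ⊤ ∉ G := by
    intro hc
    obtain ⟨H, hH, he⟩ := Finset.mem_image.1 hc
    rw [Set.Finite.mem_toFinset] at hH
    apply h H hH
    intro x hx
    have : (⟨x, hx⟩ : S) ∈ H.comap S.subtype := by rw [he]; trivial
    exact this
  have h2 := Subspace.biUnion_ne_univ_of_top_notMem h1
  obtain ⟨x, hx⟩ := (Set.ne_univ_iff_exists_notMem _).1 h2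
  refine ⟨x.1, x.2, fun H hH hm => hx ?_⟩
  rw [Set.mem_iUnion₂]
  exact ⟨H.comap S.subtype, Finset.mem_image.2 ⟨H, (Set.Finite.mem_toFinset hF).2 hH, rfl⟩, hm⟩

/-- **Generic elements.** -/
theorem exists_generic [Infinite k] {ι : Type*} (Q : Set ι) (hQ : Q.Finite) (o : ι → K → ℤ)
    (ho : ∀ P, IsOrd k (o P)) (S : Submodule k K) (hS : S.FG) (F : Set (Submodule k K))
    (hF : F.Finite) (h : ∀ H ∈ F, ¬ S ≤ H) (L : K →ₗ[k] K) (hL : ∃ s ∈ S, L s ≠ 0) :
    ∃ s ∈ S, L s ≠ 0 ∧ (∀ H ∈ F, s ∉ H) ∧ ∀ P ∈ Q,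
      (∀ s' ∈ S, s' ≠ 0 → o P s ≤ o P s') ∧ ∀ s' ∈ S, L s' ≠ 0 → o P (L s) ≤ o P (L s') := by
  obtain ⟨s1, hs1, hL1⟩ := hL
  have hSb : S ≠ ⊥ := by
    rintro rfl
    rw [Submodule.mem_bot] at hs1
    rw [hs1, map_zero] at hL1
    exact hL1 rfl
  have hLb : S.map L ≠ ⊥ := by
    intro hc
    have : L s1 ∈ S.map L := Submodule.mem_map_of_mem hs1
    rw [hc, Submodule.mem_bot] at this
    exact hL1 this
  choose x hxm hx0 hxmin using fun P => (ho P).exists_min hS hSb
  choose y hym hy0 hymin using fun P => (ho P).exists_min (hS.map L) hLb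
  let F' : Set (Submodule k K) := F ∪ (fun P => (ho P).gt (o P (x P))) '' Q ∪
    (fun P => ((ho P).gt (o P (y P))).comap L) '' Q ∪ {LinearMap.ker L}
  have hF' : F'.Finite := ((hF.union (hQ.image _)).union (hQ.image _)).union (Set.finite_singleton _)
  obtain ⟨s, hsS, hs⟩ := exists_avoid S F' hF' (by
    rintro H (((hH | ⟨P, -, rfl⟩) | ⟨P, -, rfl⟩) | hH) hle
    · exact h H hH hle
    · rcases hle (hxm P) with h1 | h1
      · exact hx0 P h1
      · exact lt_irrefl _ h1
    · obtain ⟨z, hz, hzy⟩ := Submodule.mem_map.1 (hym P)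
      rcases hle hz with h1 | h1
      · exact hy0 P (hzy ▸ h1)
      · rw [hzy] at h1
        exact lt_irrefl _ h1
    · rw [Set.mem_singleton_iff] at hH
      rw [hH] at hle
      exact hL1 (LinearMap.mem_ker.1 (hle hs1)))
  have hLs : L s ≠ 0 := fun hc => hs _ (Or.inr rfl) (LinearMap.mem_ker.2 hc)
  have hs0 : s ≠ 0 := by
    rintro rfl
    exact hLs (map_zero L)
  refine ⟨s, hsS, hLs, fun H hH => hs H (Or.inl (Or.inl (Or.inl hH))), fun P hP => ⟨?_, ?_⟩⟩
  · intro s' hs' hs0'
    have h1 : s ∉ (ho P).gt (o P (x P)) := hs _ (Or.inl (Or.inl (Or.inr ⟨P, hP, rfl⟩)))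
    rw [IsOrd.mem_gt, not_or, not_lt] at h1
    exact h1.2.trans (hxmin P s' hs' hs0')
  · intro s' hs' hs0'
    have h1 : s ∉ ((ho P).gt (o P (y P))).comap L := hs _ (Or.inl (Or.inr ⟨P, hP, rfl⟩))
    rw [Submodule.mem_comap, IsOrd.mem_gt, not_or, not_lt] at h1
    exact h1.2.trans (hymin P _ (Submodule.mem_map_of_mem hs') hs0')

end

end Pool.Agent.TGh71
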