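import Pool.Agent.Lib.TG_h33.W2

/-!
# TANK G, block B: the extremal choice
-/

set_option autoImplicit false

namespace Pool.Agent.TGh71

open Module

section Min

variable {k K : Type*} [Field k] [Field K] [Algebra k K]

/-- **The extremal choice.** `C` is a class of subspaces of `S₀`, `M` a nonnegative function on it;
there is a member `S` minimising `M S - c * dim S`; its codimension is at most `M S₀ / c`. -/
theorem exists_extremal (S₀ : Submodule k K) [FiniteDimensional k S₀] (C : Submodule k K → Prop)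
    (h0 : C S₀) (M : Submodule k K → ℤ) (hM : ∀ S, S ≤ S₀ → C S → 0 ≤ M S) (c : ℕ) :
    ∃ S, S ≤ S₀ ∧ C S ∧ (∀ S', S' ≤ S₀ → C S' →
      M S - (c * finrank k S : ℕ) ≤ M S' - (c * finrank k S' : ℕ)) ∧
      ((c * (finrank k S₀ - finrank k S) : ℕ) : ℤ) ≤ M S₀ := by
  classical
  have hle : ∀ S : Submodule k K, S ≤ S₀ → finrank k S ≤ finrank k S₀ := fun S hS =>
    Submodule.finrank_mono hS
  -- the set of natural numbers `M S + c * (dim S₀ - dim S)`
  let T : Set ℕ := {m | ∃ S, S ≤ S₀ ∧ C S ∧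
    (m : ℤ) = M S + (c * (finrank k S₀ - finrank k S) : ℕ)}
  have hT : T.Nonempty := ⟨(M S₀).toNat, S₀, le_rfl, h0, by
    rw [Int.toNat_of_nonneg (hM _ le_rfl h0)]; simp⟩
  obtain ⟨S, hS, hC, he⟩ := Nat.sInf_mem hT
  have hmin : ∀ S', S' ≤ S₀ → C S' → M S + (c * (finrank k S₀ - finrank k S) : ℕ) ≤
      M S' + (c * (finrank k S₀ - finrank k S') : ℕ) := by
    intro S' hS' hC'
    have h1 := hM S' hS' hC'
    have h2 : (M S' + (c * (finrank k S₀ - finrank k S') : ℕ)).toNat ∈ T :=
      ⟨S', hS', hC', by rw [Int.toNat_of_nonneg (by positivity)]⟩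
    have h3 := Nat.sInf_le h2
    rw [← he]
    have h4 : (((M S' + (c * (finrank k S₀ - finrank k S') : ℕ)).toNat : ℕ) : ℤ) =
        M S' + (c * (finrank k S₀ - finrank k S') : ℕ) := Int.toNat_of_nonneg (by positivity)
    rw [← h4]
    exact_mod_cast h3
  refine ⟨S, hS, hC, fun S' hS' hC' => ?_, ?_⟩
  · have h1 := hmin S' hS' hC'
    have h2 := hle S hS
    have h3 := hle S' hS'
    push_cast [Nat.cast_sub h2, Nat.cast_sub h3] at h1 ⊢
    linarith
  · have h1 := hmin S₀ le_rfl h0
    have h2 := hM S hS hC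
    simp only [Nat.sub_self, mul_zero, Nat.cast_zero, add_zero] at h1
    linarith

/-- At the extremal `S` every hyperplane in the class has `M S - M S' ≤ c`. -/
theorem drop_le {S S' : Submodule k K} {M : Submodule k K → ℤ} {c : ℕ}
    (h : M S - (c * finrank k S : ℕ) ≤ M S' - (c * finrank k S' : ℕ))
    (hd : finrank k S ≤ finrank k S' + 1) : M S - M S' ≤ c := by
  have h1 : c * finrank k S ≤ c * (finrank k S' + 1) := Nat.mul_le_mul_left _ hd
  have h2 : ((c * finrank k S : ℕ) : ℤ) ≤ ((c * (finrank k S' + 1) : ℕ) : ℤ) := by exact_mod_cast h1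
  push_cast at h h2 ⊢
  linarith

end Min

section Wne

variable {k K : Type*} [Field k] [Field K] [Algebra k K]

/-- Intersection of the preimages of `S` under finitely many linear maps. -/
theorem exists_common {ι : Type*} [Fintype ι] (U S₀ S : Submodule k K) [FiniteDimensional k U]
    [FiniteDimensional k S₀] (hS : S ≤ S₀) (L : ι → K →ₗ[k] K) (hL : ∀ i, ∀ g ∈ U, L i g ∈ S₀)
    (hd : Fintype.card ι * (finrank k S₀ - finrank k S) < finrank k U) :
    ∃ g ∈ U, g ≠ 0 ∧ ∀ i, L i g ∈ S := by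
  classical
  -- the map `U → ∏ S₀ / S`
  let S1 : Submodule k S₀ := S.comap S₀.subtype
  let F : U →ₗ[k] (ι → (S₀ ⧸ S1)) := LinearMap.pi fun i =>
    S1.mkQ ∘ₗ ((L i).domRestrict U).codRestrict S₀ fun g => hL i g.1 g.2
  have i1 : Module.Free k (S₀ ⧸ S1) := Module.Free.of_divisionRing k _
  have i2 : Module.Finite k (S₀ ⧸ S1) := inferInstance
  have h1 : finrank k (ι → (S₀ ⧸ S1)) < finrank k U := by
    rw [Module.finrank_pi_fintype k]
    have h2 : finrank k (S₀ ⧸ S1) = finrank k S₀ - finrank k S := by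
      rw [Submodule.finrank_quotient]
      congr 1
      exact (Submodule.comapSubtypeEquivOfLe hS).finrank_eq
    simp only [h2, Finset.sum_const, Finset.card_univ, smul_eq_mul]
    exact hd
  obtain ⟨g, hg, hg0⟩ := Submodule.exists_mem_ne_zero_of_ne_bot
    (LinearMap.ker_ne_bot_of_finrank_lt h1 : LinearMap.ker F ≠ ⊥)
  refine ⟨g.1, g.2, fun h => hg0 (Subtype.ext h), fun i => ?_⟩
  have h3 : F g i = 0 := by rw [LinearMap.mem_ker.1 hg]; rfl
  have h4 : ((L i).domRestrict U).codRestrict S₀ (fun g => hL i g.1 g.2) g ∈ S1 := by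
    rw [← Submodule.Quotient.mk_eq_zero]
    exact h3
  exact h4

end Wne

section Large

universe u

variable {k K : Type u} [Field k] [Field K] [Algebra k K] {n : ℕ}

open Pool.Agent.TGh33

/-- A subspace `S` of `V ^ (m + 1)` of small codimension contains `g, g z_1, .., g z_n`; so `W ≠ 0`
on `S ^ (n + 1)`. -/
theorem exists_Wr_ne_zero {D : Fin n → Derivation k K K} {z : Fin n → K} (hD : DB D z)
    (U S₀ S : Submodule k K) [FiniteDimensional k U] [FiniteDimensional k S₀] (hS : S ≤ S₀)
    (hU : U ≤ S₀) (hz : ∀ i, ∀ g ∈ U, g * z i ∈ S₀)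
    (hd : (n + 1) * (finrank k S₀ - finrank k S) < finrank k U) :
    ∃ f : Fin (n + 1) → K, (∀ i, f i ∈ S) ∧ Wr D f ≠ 0 := by
  classical
  let z' : Fin (n + 1) → K := Fin.cons 1 z
  obtain ⟨g, hg, hg0, h⟩ := exists_common U S₀ S hS (fun i : Fin (n + 1) =>
    (LinearMap.mulRight k (z' i) : K →ₗ[k] K)) (by
      intro i
      refine Fin.cases ?_ (fun j => ?_) i
      · intro g hg
        have : z' 0 = 1 := rfl
        rw [LinearMap.mulRight_apply, this, mul_one]
        exact hU hg
      · intro g hg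
        have : z' j.succ = z j := rfl
        rw [LinearMap.mulRight_apply, this]
        exact hz j g hg) (by rwa [Fintype.card_fin])
  refine ⟨fun i => g * z' i, fun i => by simpa using h i, ?_⟩
  rw [Wr_mul]
  refine mul_ne_zero (pow_ne_zero _ hg0) ?_
  rw [Wr_eq D z' (one_ne_zero), show z' 0 = 1 from rfl, one_pow, one_mul]
  have h1 : (Matrix.of fun j i : Fin n => D i (z' j.succ / 1)) = 1 := by
    ext j i
    rw [Matrix.of_apply, div_one, show z' j.succ = z j from rfl, hD.dual, Matrix.one_apply]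
    by_cases hij : i = j
    · rw [if_pos hij, if_pos hij.symm]
    · rw [if_neg hij, if_neg fun h => hij h.symm]
  rw [h1, Matrix.det_one]
  exact one_ne_zero

end Large

end Pool.Agent.TGh71
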