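import Pool.Agent.Lib.TG_h82.Rho

/-!
# TANK G, bridge B → C: local degrees over a hypersurface

`sum_rho_root`: for `ℓ ∈ L` integral over `A` with minimal polynomial `p ∈ A[T]`, the sum of the
local degrees of the points `x` of `L` over `z` with `x(ℓ) = 0` is `[L : F(ℓ)]` times the
multiplicity of the root `0` of `p mod z`.
-/

set_option autoImplicit false

namespace Pool.Agent.TGh71

open Polynomial Pool.Agent.TG82
open Pool.Agent.TG (ncl up)

universe u

variable {k F L : Type u} [Field k] [Field F] [Field L] [Algebra k F] [Algebra k L]
  [Algebra F L] [IsScalarTower k F L] [FiniteDimensional F L]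

omit [Algebra k F] [Algebra k L] [IsScalarTower k F L] in
theorem norm_sub_algebraMap (l : L) (c : F) :
    Algebra.norm F (l - algebraMap F L c) =
      ((-1) ^ (minpoly F l).natDegree * (minpoly F l).eval c) ^
        Module.finrank (IntermediateField.adjoin F {l}) L := by
  have hint : IsIntegral F (l - algebraMap F L c) := Algebra.IsIntegral.isIntegral _
  have h0 : IntermediateField.adjoin F {l - algebraMap F L c} = IntermediateField.adjoin F {l} := by
    refine le_antisymm ?_ ?_
    · rw [IntermediateField.adjoin_le_iff, Set.singleton_subset_iff]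
      exact sub_mem (IntermediateField.mem_adjoin_simple_self F l)
        (IntermediateField.algebraMap_mem _ c)
    · rw [IntermediateField.adjoin_le_iff, Set.singleton_subset_iff]
      have := add_mem (IntermediateField.mem_adjoin_simple_self F (l - algebraMap F L c))
        (IntermediateField.algebraMap_mem (IntermediateField.adjoin F {l - algebraMap F L c}) c)
      rwa [sub_add_cancel] at this
  have h00 : Module.finrank (IntermediateField.adjoin F {l - algebraMap F L c}) L =
      Module.finrank (IntermediateField.adjoin F {l}) L := by rw [h0]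
  rw [Algebra.norm_eq_norm_adjoin, h00]
  congr 1
  have h1 := Algebra.PowerBasis.norm_gen_eq_coeff_zero_minpoly
    (IntermediateField.adjoin.powerBasis hint)
  rw [IntermediateField.adjoin.powerBasis_gen] at h1
  rw [h1, IntermediateField.minpoly_gen, minpoly.sub_algebraMap, coeff_zero_eq_eval_zero,
    eval_comp, eval_add, eval_X, eval_C, zero_add]
  congr 2
  rw [IntermediateField.adjoin.powerBasis_dim, minpoly.sub_algebraMap, natDegree_comp,
    natDegree_X_add_C, mul_one]

variable [IsAlgClosed k]

/-- Local degrees over a hypersurface. -/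
theorem sum_rho_root {A : Subalgebra k F} (hA : ∀ b : F, IsIntegral A b → b ∈ A)
    (z : A →ₐ[k] k) (X : Finset (ncl (up L A) →ₐ[k] k))
    (hX : ∀ x, x ∈ X ↔ x.comp (toC L A) = z) (l : ncl (up L A)) (p : Polynomial A)
    (hp : p.map (algebraMap A F) = minpoly F (l : L)) [DecidablePred fun x : ncl (up L A) →ₐ[k] k =>
      x l = 0] :
    ∑ x ∈ X with x l = 0, rho A x =
      Module.finrank (IntermediateField.adjoin F {(l : L)}) L *
        (p.map (z : A →+* k)).rootMultiplicity 0 := by
  classical
  set e := Module.finrank (IntermediateField.adjoin F {(l : L)}) L with he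
  set q : Polynomial k := p.map (z : A →+* k) with hq
  have hint : IsIntegral F (l : L) := Algebra.IsIntegral.isIntegral _
  have hpm : p.Monic := by
    refine Polynomial.monic_of_injective (f := algebraMap A F) Subtype.val_injective ?_
    rw [hp]
    exact minpoly.monic hint
  have hqm : q.Monic := hpm.map _
  have hinj : Function.Injective (algebraMap A F) := Subtype.val_injective
  -- the identity of polynomials
  have h1 : ∀ c : k, ((C ((-1) ^ (minpoly F (l : L)).natDegree) * q) ^ e).eval c =
      (∏ x ∈ X, (C (x l) - Polynomial.X) ^ rho A x).eval c := by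
    intro c
    let cA : A := algebraMap k A c
    let n : A := ((-1) ^ (minpoly F (l : L)).natDegree * p.eval cA) ^ e
    have hn : (n : F) = Algebra.norm F (((l - algebraMap k _ c : ncl (up L A))) : L) := by
      have e1 : (((l - algebraMap k _ c : ncl (up L A))) : L) =
          (l : L) - algebraMap F L (algebraMap k F c) := by
        rw [← IsScalarTower.algebraMap_apply k F L]
        rfl
      rw [e1, norm_sub_algebraMap, ← hp, Polynomial.eval_map]
      change algebraMap A F (((-1) ^ (minpoly F (l : L)).natDegree * p.eval cA) ^ e) = _
      rw [map_pow, map_mul, map_pow, map_neg, map_one]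
      congr 2
      · rw [hp]
      · rw [← Polynomial.eval₂_at_apply]
        rfl
    have h2 := norm_rho hA z X hX (l - algebraMap k _ c) n hn
    have h3 : z n = ((-1) ^ (minpoly F (l : L)).natDegree * q.eval c) ^ e := by
      change z (((-1) ^ (minpoly F (l : L)).natDegree * p.eval cA) ^ e) = _
      rw [map_pow, map_mul, map_pow, map_neg, map_one, hq, Polynomial.eval_map]
      congr 2
      have e2 : (z : A →+* k) cA = c := z.commutes c
      have e3 := Polynomial.hom_eval₂ p (RingHom.id A) (z : A →+* k) cA
      rw [RingHom.comp_id, e2] at e3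
      exact e3
    rw [Polynomial.eval_pow, Polynomial.eval_mul, Polynomial.eval_C, ← h3, h2,
      Polynomial.eval_prod]
    refine Finset.prod_congr rfl fun x _ => ?_
    rw [Polynomial.eval_pow, Polynomial.eval_sub, Polynomial.eval_C, Polynomial.eval_X, map_sub]
    congr 2
    exact x.commutes c
  have h2 := Polynomial.funext h1
  have hu : ((-1 : k) ^ (minpoly F (l : L)).natDegree) ≠ 0 := by simp
  have h3 : ((C ((-1) ^ (minpoly F (l : L)).natDegree) * q) ^ e).rootMultiplicity 0 =
      e * q.rootMultiplicity 0 := by
    rw [← Polynomial.count_roots, Polynomial.roots_pow, Multiset.count_nsmul,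
      Polynomial.roots_C_mul _ hu, Polynomial.count_roots]
  have h4 : (∏ x ∈ X, (C (x l) - Polynomial.X) ^ rho A x).rootMultiplicity 0 =
      ∑ x ∈ X with x l = 0, rho A x := by
    have hne : ∀ x : ncl (up L A) →ₐ[k] k, (C (x l) - Polynomial.X : Polynomial k) ≠ 0 := by
      intro x h
      have := congrArg (fun r => r.coeff 1) h
      simp at this
    rw [← Polynomial.count_roots, Polynomial.roots_prod _ _ (Finset.prod_ne_zero_iff.2 fun x _ =>
      pow_ne_zero _ (hne x)), Multiset.count_bind]
    rw [Finset.sum_filter]
    refine Finset.sum_congr rfl fun x _ => ?_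
    rw [Polynomial.roots_pow, Multiset.count_nsmul]
    have e4 : (C (x l) - Polynomial.X : Polynomial k).roots = {x l} := by
      rw [← neg_sub, Polynomial.roots_neg, Polynomial.roots_X_sub_C]
    rw [e4, Multiset.count_singleton]
    by_cases h0 : x l = 0
    · rw [if_pos h0, if_pos h0.symm, mul_one]
    · rw [if_neg h0, if_neg (fun h => h0 h.symm), mul_zero]
  rw [← h4, ← h2, h3]

end Pool.Agent.TGh71
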